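import Pool.Agent.Q78.WI.Stm

/-!
# The Gram matrix of the Wishart problem is positive (semi)definite
-/

open MeasureTheory ProbabilityTheory Filter Topology Set
open scoped NNReal InnerProductSpace Matrix

namespace Pool.Agent.Q252.WI
open Pool.Agent.Q78.WI
universe u v

section
variable {H : Type u} [NormedAddCommGroup H] [InnerProductSpace ℝ H]

theorem form_cont {T : ℝ → H →L[ℝ] H} (hT : IsSemigroup T) (Q : H →L[ℝ] H) (x y : H) :
    ContinuousOn (fun v => ⟪Q (T v x), T v y⟫_ℝ) (Ici 0) :=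
  ContinuousOn.inner (Q.continuous.comp_continuousOn (hT.cont x)) (hT.cont y)

theorem form_int {T : ℝ → H →L[ℝ] H} (hT : IsSemigroup T) (Q : H →L[ℝ] H) (x y : H) {r : ℝ}
    (hr : 0 ≤ r) : IntervalIntegrable (fun v => ⟪Q (T v x), T v y⟫_ℝ) volume 0 r := by
  apply ContinuousOn.intervalIntegrable
  rw [uIcc_of_le hr]
  exact (form_cont hT Q x y).mono (fun t ht => ht.1)

theorem gram_herm {T : ℝ → H →L[ℝ] H} {Q : H →L[ℝ] H} (hQ : Q.IsPositive) {d : ℕ}
    (g : Fin d → H) (r : ℝ) : (gram T Q g r).IsHermitian := by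
  ext i j
  simp only [gram, Matrix.conjTranspose_apply, Matrix.of_apply, star_trivial]
  congr 1
  apply intervalIntegral.integral_congr
  intro v _
  simp only
  rw [hQ.inner_left_eq_inner_right, real_inner_comm]

theorem gram_quad {T : ℝ → H →L[ℝ] H} (hT : IsSemigroup T) (Q : H →L[ℝ] H) {d : ℕ}
    (g : Fin d → H) {r : ℝ} (hr : 0 ≤ r) (x : Fin d → ℝ) :
    star x ⬝ᵥ (gram T Q g r *ᵥ x)
      = 2 * ∫ v in (0 : ℝ)..r, ⟪Q (T v (∑ i, x i • g i)), T v (∑ i, x i • g i)⟫_ℝ := by
  have h1 : ∀ v : ℝ, ⟪Q (T v (∑ i, x i • g i)), T v (∑ i, x i • g i)⟫_ℝ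
      = ∑ i, ∑ j, x i * (x j * ⟪Q (T v (g i)), T v (g j)⟫_ℝ) := by
    intro v
    simp only [map_sum, map_smul, sum_inner, inner_sum, real_inner_smul_left,
      real_inner_smul_right]
    rw [Finset.sum_comm]
    refine Finset.sum_congr rfl fun i _ => Finset.sum_congr rfl fun j _ => ?_
    ring
  have h2 : ∀ i j : Fin d, IntervalIntegrable
      (fun v => x i * (x j * ⟪Q (T v (g i)), T v (g j)⟫_ℝ)) volume 0 r :=
    fun i j => ((form_int hT Q (g i) (g j) hr).const_mul _).const_mul _
  have h3 : ∀ i : Fin d, IntervalIntegrable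
      (fun v => ∑ j, x i * (x j * ⟪Q (T v (g i)), T v (g j)⟫_ℝ)) volume 0 r := by
    intro i
    have h := IntervalIntegrable.sum Finset.univ (fun j (_ : j ∈ Finset.univ) => h2 i j)
    refine h.congr ?_
    intro v _
    simp only [Finset.sum_apply]
  simp only [h1]
  rw [intervalIntegral.integral_finsetSum (fun i _ => h3 i)]
  simp only [dotProduct, Matrix.mulVec, gram, Matrix.of_apply, star_trivial, Finset.mul_sum]
  refine Finset.sum_congr rfl fun i _ => ?_
  rw [intervalIntegral.integral_finsetSum (fun j _ => h2 i j), Finset.mul_sum]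
  refine Finset.sum_congr rfl fun j _ => ?_
  rw [intervalIntegral.integral_const_mul, intervalIntegral.integral_const_mul]
  ring

theorem pos_inner {Q : H →L[ℝ] H} (hQ : Q.IsPositive) (x : H) : 0 ≤ ⟪Q x, x⟫_ℝ :=
  hQ.inner_nonneg_left x

theorem apply_eq_zero {Q : H →L[ℝ] H} (hQ : Q.IsPositive) {z : H} (hz : ⟪Q z, z⟫_ℝ = 0) :
    Q z = 0 := by
  by_contra hne
  have ha : 0 < ‖Q z‖ ^ 2 := by positivity
  set a := ‖Q z‖ ^ 2 with hadef
  set c := ⟪Q (Q z), Q z⟫_ℝ with hc
  have hc0 : 0 ≤ c := pos_inner hQ _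
  have key : ∀ t : ℝ, 0 ≤ 2 * t * a + t ^ 2 * c := by
    intro t
    have h := pos_inner hQ (z + t • Q z)
    have e : ⟪Q (z + t • Q z), z + t • Q z⟫_ℝ = 2 * t * a + t ^ 2 * c := by
      simp only [map_add, map_smul, inner_add_left, inner_add_right, real_inner_smul_left,
        real_inner_smul_right, hz]
      rw [hQ.inner_left_eq_inner_right (Q z) z, real_inner_self_eq_norm_sq]
      ring
    rwa [e] at h
  have h3 := key (-(a / (c + 1)))
  have hc1 : 0 < c + 1 := by linarith
  have e2 : 2 * -(a / (c + 1)) * a + (-(a / (c + 1))) ^ 2 * c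
      = -(a ^ 2 * (c + 2)) / (c + 1) ^ 2 := by
    field_simp
    ring
  rw [e2] at h3
  have : -(a ^ 2 * (c + 2)) / (c + 1) ^ 2 < 0 := by
    apply div_neg_of_neg_of_pos
    · have : 0 < a ^ 2 * (c + 2) := by positivity
      linarith
    · positivity
  linarith

end

/-- A3: the Gram matrix is positive semidefinite, and positive definite for independent vectors if
`Q` is injective. -/
theorem a3 : S_A3.{u} := by
  intro H _ _ _ T hT Q hQ
  refine ⟨fun d g r hr => ?_, fun hinj d g hg r hr => ?_⟩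
  · refine Matrix.PosSemidef.of_dotProduct_mulVec_nonneg (gram_herm hQ g r) fun x => ?_
    rw [gram_quad hT Q g hr x]
    have := intervalIntegral.integral_nonneg (μ := volume) hr
      (f := fun v => ⟪Q (T v (∑ i, x i • g i)), T v (∑ i, x i • g i)⟫_ℝ)
      (fun v _ => pos_inner hQ _)
    linarith
  · refine Matrix.PosDef.of_dotProduct_mulVec_pos (gram_herm hQ g r) fun x hx => ?_
    rw [gram_quad hT Q g hr.le x]
    set z := ∑ i, x i • g i with hz
    have hz0 : z ≠ 0 := by
      intro h0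
      apply hx
      funext i
      exact (Fintype.linearIndependent_iff.1 hg) x h0 i
    have hpos : 0 < ⟪Q (T 0 z), T 0 z⟫_ℝ := by
      rw [hT.zero]
      simp only [ContinuousLinearMap.id_apply]
      refine lt_of_le_of_ne (pos_inner hQ z) fun h => hz0 ?_
      exact hinj (by rw [apply_eq_zero hQ h.symm, map_zero])
    have := intervalIntegral.integral_pos (f := fun v => ⟪Q (T v z), T v z⟫_ℝ) hr
      ((form_cont hT Q z z).mono (fun t ht => ht.1)) (fun v _ => pos_inner hQ _)
      ⟨0, ⟨le_refl 0, hr.le⟩, hpos⟩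
    linarith

end Pool.Agent.Q252.WI
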